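import Pool.Agent.MP_cafee0_al.Main

namespace Pool.Agent.Results.MP_cafee0_al.CenterTrivial

open Pool.Agent.MP_cafee0_al

/-- The center of `U⁺ = U_q(sl₂^)^{>0}` consists of the scalars: it is the subalgebra generated by
the empty set, its elements are exactly the `c · 1` with `c ∈ K`, and `c ↦ c · 1` is injective.
Here `K` is any field (algebraically closed or not, of any characteristic) and `q ∈ K` is nonzero and
not a root of unity. -/
theorem result {K : Type*} [Field K] (q : K) (hq0 : q ≠ 0) (hq : ∀ n : ℕ, 0 < n → q ^ n ≠ 1) :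
    Subalgebra.center K (UPlus q) = Algebra.adjoin K (∅ : Set (UPlus q)) ∧
    (∀ z : UPlus q, z ∈ Subalgebra.center K (UPlus q) ↔ ∃ c : K, z = algebraMap K (UPlus q) c) ∧
    Function.Injective (algebraMap K (UPlus q)) := by
  have h := center_eq_bot hq0 hq
  refine ⟨?_, ?_, (algebraMap K (UPlus q)).injective⟩
  · rw [h, Algebra.adjoin_empty]
  · intro z
    rw [h, Algebra.mem_bot]
    constructor
    · rintro ⟨c, hc⟩; exact ⟨c, hc.symm⟩
    · rintro ⟨c, hc⟩; exact ⟨c, hc.symm⟩

end Pool.Agent.Results.MP_cafee0_al.CenterTrivial
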